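import Pool.Agent.Lib.MP_a4feb0_gt.LP.Main

set_option autoImplicit false

open Pointwise

universe u

/-- Every totally minimal, locally precompact Hausdorff topological group of countable tightness
that has a nilpotent normal subgroup with nilpotent quotient is metrizable.  In the order on
topologies, `τ ≤ σ` means that `σ` is coarser. -/
theorem Pool.Agent.Results.MP_a4feb0_gt.NilpotentByNilpotent.result
    (G : Type u) [Group G] [TopologicalSpace G] [IsTopologicalGroup G] [T2Space G]
    (totallyMinimal : ∀ (N : Subgroup G) [N.Normal], IsClosed (N : Set G) →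
      ∀ σ : TopologicalSpace (G ⧸ N), @IsTopologicalGroup (G ⧸ N) σ _ → @T2Space (G ⧸ N) σ →
        QuotientGroup.instTopologicalSpace N ≤ σ →
        σ = QuotientGroup.instTopologicalSpace N)
    (locallyPrecompact : ∃ U ∈ nhds (1 : G), ∀ V ∈ nhds (1 : G),
      ∃ F : Set G, F.Finite ∧ U ⊆ F * V)
    (B : Subgroup G) [B.Normal] (nilpotentSubgroup : Group.IsNilpotent B)
    (nilpotentQuotient : Group.IsNilpotent (G ⧸ B))
    (countableTightness : ∀ (A : Set G) (x : G), x ∈ closure A →
      ∃ C : Set G, C ⊆ A ∧ C.Countable ∧ x ∈ closure C) :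
    TopologicalSpace.MetrizableSpace G :=
  Pool.Agent.Lib.MP_a4feb0_gt.LP.metrizable G totallyMinimal locallyPrecompact B
    nilpotentSubgroup nilpotentQuotient countableTightness
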