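import Pool.Agent.Lib.MP_a4feb0_gt.Ctr

set_option autoImplicit false

/-- Q1 is false: there is a totally minimal, solvable Hausdorff topological group of countable
tightness that is not metrizable.  In the order on topologies, `τ ≤ σ` means that `σ` is
coarser. -/
theorem Pool.Agent.Results.MP_a4feb0_gt.NotMetrizable.result :
    ∃ (G : Type) (_ : Group G) (_ : TopologicalSpace G) (_ : IsTopologicalGroup G)
      (_ : T2Space G),
      (∀ (N : Subgroup G) [N.Normal], IsClosed (N : Set G) →
        ∀ σ : TopologicalSpace (G ⧸ N), @IsTopologicalGroup (G ⧸ N) σ _ → @T2Space (G ⧸ N) σ →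
          QuotientGroup.instTopologicalSpace N ≤ σ →
          σ = QuotientGroup.instTopologicalSpace N) ∧
      Group.IsSolvable G ∧
      (∀ (A : Set G) (x : G), x ∈ closure A →
        ∃ B : Set G, B ⊆ A ∧ B.Countable ∧ x ∈ closure B) ∧
      ¬ TopologicalSpace.MetrizableSpace G :=
  ⟨Pool.Agent.Lib.MP_a4feb0_gt.Ctr.G, inferInstance, inferInstance, inferInstance, inferInstance,
    fun N _ _ => Pool.Agent.Lib.MP_a4feb0_gt.Ctr.totallyMinimal N,
    Pool.Agent.Lib.MP_a4feb0_gt.Ctr.solvable, Pool.Agent.Lib.MP_a4feb0_gt.Ctr.tight,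
    Pool.Agent.Lib.MP_a4feb0_gt.Ctr.not_metrizable⟩
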