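import Pool.Agent.Lib.MP_a4feb0_gt.Main

set_option autoImplicit false

open Pointwise

universe u

/-- Q2: every totally minimal, precompact, solvable Hausdorff topological group of countable
tightness is metrizable.  In the order on topologies, `τ ≤ σ` means that `σ` is coarser. -/
theorem Pool.Agent.Results.MP_a4feb0_gt.PrecompactMetrizable.result
    (G : Type u) [Group G] [TopologicalSpace G] [IsTopologicalGroup G] [T2Space G]
    (totallyMinimal : ∀ (N : Subgroup G) [N.Normal], IsClosed (N : Set G) →
      ∀ σ : TopologicalSpace (G ⧸ N), @IsTopologicalGroup (G ⧸ N) σ _ → @T2Space (G ⧸ N) σ →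
        QuotientGroup.instTopologicalSpace N ≤ σ →
        σ = QuotientGroup.instTopologicalSpace N)
    (precompact : ∀ U ∈ nhds (1 : G), ∃ F : Set G, F.Finite ∧ F * U = Set.univ)
    (solvable : Group.IsSolvable G)
    (countableTightness : ∀ (A : Set G) (x : G), x ∈ closure A →
      ∃ B : Set G, B ⊆ A ∧ B.Countable ∧ x ∈ closure B) :
    TopologicalSpace.MetrizableSpace G :=
  Pool.Agent.Lib.MP_a4feb0_gt.metrizable_of_totallyMinimal G totallyMinimal precompact solvable
    countableTightness
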